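import Pool.Agent.Helper548.Knot.Core

/-!
# Sets of vertices containing all knots with few crossings
-/

set_option autoImplicit false

open Set

namespace Pool.Agent.Y399.KU

open Knot548

/-- at most four of the points are in a plane -/
def FourPerPlane {n : ℕ} (f : Fin n → R3) : Prop :=
  Function.Injective f ∧ ∀ (g : R3 →ₗ[ℝ] ℝ) (c : ℝ), g ≠ 0 →
    (Finset.univ.filter (fun i => g (f i) = c)).card ≤ 4

lemma fourPerPlane_of_linEmb {n : ℕ} {f : Fin n → R3} (hf : LinEmb f) : FourPerPlane f :=
  ⟨hf.inj, emb_planes f hf.inj hf.edges⟩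

lemma fourPerPlane_comp {n m : ℕ} {f : Fin n → R3} (hf : FourPerPlane f) (g : Fin m → Fin n)
    (hg : Function.Injective g) : FourPerPlane (f ∘ g) := by
  refine ⟨hf.1.comp hg, fun l c hl => ?_⟩
  refine le_trans ?_ (hf.2 l c hl)
  refine Finset.card_le_card_of_injOn g ?_ (hg.injOn)
  intro i hi
  simp only [Finset.coe_filter, Finset.mem_univ, true_and, mem_setOf_eq, Function.comp_apply]
    at hi ⊢
  exact hi

/-- the vertices in `V` contain all polygons with a diagram with at most `k` crossings -/
def Univ {n : ℕ} (f : Fin n → R3) (k : ℕ) (V : Finset (Fin n)) : Prop :=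
  ∀ j : ℕ, 1 ≤ j → j ≤ k → ∀ L : List R3, IsDiagram L j →
    ∃ c : List (Fin n), 3 ≤ c.length ∧ c.Nodup ∧ (∀ x ∈ c, x ∈ V) ∧ Eqv (c.map f) L

theorem exists_univ0 : ∃ C d : ℕ, ∀ k : ℕ, 1 ≤ k → ∀ n : ℕ, C * k ^ d ≤ n →
    ∀ f : Fin n → R3, FourPerPlane f → ∃ V : Finset (Fin n), V.Nonempty ∧
      V.card ≤ 4 * k + 4 ∧ Univ f k V := by
  classical
  obtain ⟨C, d, hA⟩ := KnotA.partA
  refine ⟨C * 4 ^ d, d, ?_⟩
  intro k hk n hn f hf
  set m : ℕ := 2 * (k + 1) with hm
  have hle : C * m ^ d ≤ n := by
    refine le_trans ?_ hn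
    rw [mul_assoc, ← mul_pow]
    exact Nat.mul_le_mul_left _ (Nat.pow_le_pow_left (by omega) _)
  obtain ⟨a', b', hchi⟩ := hA m n (by omega) hle f hf.1 hf.2
  refine ⟨Finset.univ.image a' ∪ Finset.univ.image b', ?_, ?_, ?_⟩
  · refine ⟨a' ⟨0, by omega⟩, ?_⟩
    rw [Finset.mem_union, Finset.mem_image]
    exact Or.inl ⟨_, Finset.mem_univ _, rfl⟩
  · refine (Finset.card_union_le _ _).trans ?_
    have h1 : (Finset.univ.image a').card ≤ m := by
      refine Finset.card_image_le.trans ?_
      simp
    have h2 : (Finset.univ.image b').card ≤ m := by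
      refine Finset.card_image_le.trans ?_
      simp
    omega
  · intro j hj1 hjk L hL
    obtain ⟨h0, h1, h2, h3, h4, h5⟩ := diag_transfer hL
    have hfin : {x | mult (L.map up) x = 2}.Finite := by
      apply Set.finite_of_ncard_ne_zero
      rw [h5]; omega
    obtain ⟨O, W, hW, hW1, hWl, hE⟩ := partC h0 h1 h2 h3 h4 hfin
    rw [h5] at hWl
    obtain ⟨e, he⟩ := exists_e
    obtain ⟨a, b, π, hab, hπ, hπ1, hπ2, hE2⟩ := spokes O W hW hW1 e
    have hWm : W.length ≤ m := by omega
    let ι : Fin W.length → Fin m := Fin.castLE hWm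
    have hι : ∀ i i' : Fin W.length, i < i' → ι i < ι i' := fun i i' h => h
    set u : Fin W.length → Fin n := fun i => a' (ι i) with hu
    set v : Fin W.length → Fin n := fun i => b' (ι i) with hv
    have hconf : Conf (fun i => f (u i)) (fun i => f (v i)) := by
      intro i i' l l' hij hkl
      exact hchi (ι i) (ι i') (ι l) (ι l') (hι _ _ hij) (hι _ _ hkl)
    have hB := partB a b (fun i => f (u i)) (fun i => f (v i)) hab hconf π hπ hπ1 hπ2
    have hs := simple_alt (fun i => f (u i)) (fun i => f (v i)) hconf π hπ hπ1 hπ2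
    refine ⟨alt u v π, ?_, ?_, ?_, ?_⟩
    · rw [alt_length]; omega
    · have h6 := simple_nodup hs
      rw [← alt_map] at h6
      exact h6.of_map
    · intro x hx
      unfold alt at hx
      rw [List.mem_flatMap] at hx
      obtain ⟨q, -, hq⟩ := hx
      rw [Finset.mem_union, Finset.mem_image, Finset.mem_image]
      simp only [List.mem_cons, List.not_mem_nil, or_false] at hq
      rcases hq with rfl | rfl
      · exact Or.inl ⟨_, Finset.mem_univ _, rfl⟩
      · exact Or.inr ⟨_, Finset.mem_univ _, rfl⟩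
    · rw [alt_map]
      have h7 : Eqv ((L.map up).map e) ((poly O W).map e) := eqv_mapB e _ _ hE
      have h8 : (L.map up).map e = L := by
        rw [List.map_map]
        conv_rhs => rw [← List.map_id L]
        apply List.map_congr_left
        intro q _
        simp only [Function.comp, id]
        rw [← he q]
        exact e.apply_symm_apply q
      rw [h8] at h7
      exact (Relation.EqvGen.symm _ _ hB).trans _ _ _
        ((Relation.EqvGen.symm _ _ hE2).trans _ _ _ (Relation.EqvGen.symm _ _ h7))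

/-- every large set of vertices contains a small universal set -/
theorem exists_univ : ∃ C d : ℕ, ∀ k : ℕ, 1 ≤ k → ∀ n : ℕ,
    ∀ f : Fin n → R3, FourPerPlane f → ∀ S : Finset (Fin n), C * k ^ d ≤ S.card →
      ∃ V ⊆ S, V.Nonempty ∧ V.card ≤ 4 * k + 4 ∧ Univ f k V := by
  classical
  obtain ⟨C, d, h⟩ := exists_univ0
  refine ⟨C, d, ?_⟩
  intro k hk n f hf S hS
  let g : Fin S.card ↪o Fin n := S.orderEmbOfFin rfl
  obtain ⟨V, hV1, hV2, hV3⟩ := h k hk S.card hS (f ∘ g) (fourPerPlane_comp hf g g.injective)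
  refine ⟨V.map g.toEmbedding, ?_, ?_, ?_, ?_⟩
  · intro x hx
    rw [Finset.mem_map] at hx
    obtain ⟨y, -, rfl⟩ := hx
    exact S.orderEmbOfFin_mem rfl y
  · exact hV1.map
  · rw [Finset.card_map]
    exact hV2
  · intro j hj1 hjk L hL
    obtain ⟨c, h1, h2, h3, h4⟩ := hV3 j hj1 hjk L hL
    refine ⟨c.map g, ?_, ?_, ?_, ?_⟩
    · rw [List.length_map]
      exact h1
    · exact h2.map g.injective
    · intro x hx
      rw [List.mem_map] at hx
      obtain ⟨y, hy, rfl⟩ := hx
      rw [Finset.mem_map]
      exact ⟨y, h3 y hy, rfl⟩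
    · rw [List.map_map]
      exact h4

/-- almost all vertices are covered by disjoint small sets with a property -/
theorem tiling {n : ℕ} (N : ℕ) (P : Finset (Fin n) → Prop)
    (h : ∀ S : Finset (Fin n), N ≤ S.card → ∃ V ⊆ S, V.Nonempty ∧ P V) (s : ℕ) :
    ∀ S : Finset (Fin n), S.card = s → ∃ F : Finset (Finset (Fin n)), (∀ V ∈ F, V ⊆ S ∧ P V) ∧
      (∀ V ∈ F, ∀ W ∈ F, V ≠ W → Disjoint V W) ∧ (S \ F.biUnion id).card < N := by
  classical
  induction s using Nat.strong_induction_on with
  | _ s ih =>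
    intro S hSs
    rcases Nat.lt_or_ge S.card N with hS | hS
    · refine ⟨∅, ?_, ?_, ?_⟩
      · intro V hV
        exact absurd hV (Finset.notMem_empty V)
      · intro V hV
        exact absurd hV (Finset.notMem_empty V)
      · rw [Finset.biUnion_empty, Finset.sdiff_empty]
        exact hS
    · obtain ⟨V, hVS, hVn, hPV⟩ := h S hS
      have hlt : (S \ V).card < s := by
        rw [← hSs]
        apply Finset.card_lt_card
        refine ⟨Finset.sdiff_subset, fun hcon => ?_⟩
        obtain ⟨x, hx⟩ := hVn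
        have := hcon (hVS hx)
        rw [Finset.mem_sdiff] at this
        exact this.2 hx
      obtain ⟨F, hF1, hF2, hF3⟩ := ih _ hlt (S \ V) rfl
      have hdis : ∀ W ∈ F, Disjoint V W := by
        intro W hW
        exact Finset.disjoint_of_subset_right (hF1 W hW).1 Finset.disjoint_sdiff
      refine ⟨insert V F, ?_, ?_, ?_⟩
      · intro W hW
        rw [Finset.mem_insert] at hW
        rcases hW with rfl | hW
        · exact ⟨hVS, hPV⟩
        · exact ⟨(hF1 W hW).1.trans Finset.sdiff_subset, (hF1 W hW).2⟩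
      · intro W hW W' hW' hne
        rw [Finset.mem_insert] at hW hW'
        rcases hW with rfl | hW <;> rcases hW' with rfl | hW'
        · exact absurd rfl hne
        · exact hdis W' hW'
        · exact (hdis W hW).symm
        · exact hF2 W hW W' hW' hne
      · have he : S \ (insert V F).biUnion id = (S \ V) \ F.biUnion id := by
          ext x
          simp only [Finset.biUnion_insert, id, Finset.mem_sdiff, Finset.mem_union, not_or]
          tauto
        rw [he]
        exact hF3

end Pool.Agent.Y399.KU
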